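import Pool.Agent.helper86.OF.SpecB

/-!
# BL6: many clean colours, and their vertices
-/

open scoped BigOperators

namespace Pool.Agent.OF

noncomputable section

open Classical

theorem BL6_adj {V : Type} (K : SimpleGraph V) (x0 y0 : V) (hadj : K.Adj x0 y0) (c : Sym2 V → ℕ)
    (γ i : ℕ) (v w : V) : (K.Adj v w ∧ Function.update c s(x0, y0) γ s(v, w) = i) ↔
      ((s(v, w) = s(x0, y0) ∧ γ = i) ∨ ((Kd K x0 y0).Adj v w ∧ c s(v, w) = i)) := by
  by_cases h : s(v, w) = s(x0, y0)
  · have hK : K.Adj v w := by
      rw [← SimpleGraph.mem_edgeSet, h, SimpleGraph.mem_edgeSet]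
      exact hadj
    constructor
    · rintro ⟨-, h2⟩
      left
      refine ⟨h, ?_⟩
      rw [h, Function.update_self] at h2
      exact h2
    · rintro (⟨-, h2⟩ | ⟨h2, -⟩)
      · refine ⟨hK, ?_⟩
        rw [h, Function.update_self]
        exact h2
      · rw [SimpleGraph.deleteEdges_adj] at h2
        exact absurd h h2.2
  · rw [Function.update_of_ne h, SimpleGraph.deleteEdges_adj]
    constructor
    · rintro ⟨h1, h2⟩
      exact Or.inr ⟨⟨h1, h⟩, h2⟩
    · rintro (⟨h1, -⟩ | ⟨h1, h2⟩)
      · exact absurd h1 h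
      · exact ⟨h1.1, h2⟩

theorem BL6_kcl {V : Type} (K : SimpleGraph V) (c : Sym2 V → ℕ) (i j : ℕ) (S : Finset V)
    (h : ∀ v w, K.Adj v w → (c s(v, w) = i ∨ c s(v, w) = j) → v ∈ S → w ∈ S) : Kcl K c i j S := by
  intro v w hvw hc
  refine ⟨h v w hvw hc, h w v hvw.symm ?_⟩
  rw [Sym2.eq_swap]
  exact hc

theorem BL6_has_symm {V : Type} (K : SimpleGraph V) (c : Sym2 V → ℕ) {i : ℕ} {v w : V}
    (h : K.Adj v w) (hc : c s(v, w) = i) : has K c w i := by
  refine ⟨v, h.symm, ?_⟩
  rw [Sym2.eq_swap]
  exact hc

theorem BL6_odd {V : Type} (X : Finset V) (P : V → Prop) [DecidablePred P] (x : V)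
    (h : ∀ y, y ∈ X ∧ P y ↔ y = x) (he : Even (X.filter P).card) : False := by
  have : X.filter P = {x} := by
    ext y
    rw [Finset.mem_filter, Finset.mem_singleton]
    exact h y
  rw [this, Finset.card_singleton] at he
  exact absurd he (by decide)

/-- The number of colours present at a vertex is at most its degree. -/
theorem BL6_colours {V : Type} [Fintype V] (K : SimpleGraph V) (x0 y0 : V) (c : Sym2 V → ℕ)
    (D : ℕ) (x : V) :
    ((Finset.range D).filter fun i => has (Kd K x0 y0) c x i).card ≤ dg K x := by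
  have hsub : ((Finset.range D).filter fun i => has (Kd K x0 y0) c x i) ⊆
      (Finset.univ.filter fun w => K.Adj x w).image fun w => c s(x, w) := by
    intro i hi
    obtain ⟨-, w, hw, hc⟩ := Finset.mem_filter.1 hi
    refine Finset.mem_image.2 ⟨w, Finset.mem_filter.2 ⟨Finset.mem_univ _, ?_⟩, hc⟩
    rw [SimpleGraph.deleteEdges_adj] at hw
    exact hw.1
  exact (Finset.card_le_card hsub).trans Finset.card_image_le

/-- The size of the set of clean colours. -/
theorem BL6_size (h3 : BL3_stmt) (V : Type) [Fintype V] (K : SimpleGraph V) (X : Finset V)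
    (D p : ℕ) (x0 y0 : V) (r B : ℝ) (c : Sym2 V → ℕ) (α : ℕ) (hB : BHyp K X D x0 y0 r B)
    (hg : ¬ GoodC K X D p) (hm : BMin K X D p x0 y0 r B c α) :
    17 / 10 * r ≤ (Gst K X D x0 y0 c α).card := by
  obtain ⟨-, hG, hn⟩ := h3 V K X D p x0 y0 r B c α hB hg hm.bco
  have hr : 0 ≤ r := by
    have := hB.rB
    nlinarith [sq_nonneg B]
  have hBp : 0 < B := by linarith [hB.B1]
  set P : Finset V := X.filter fun x => has (Kd K x0 y0) c x α with hP
  have hPc : (P.card : ℝ) ≤ 2 * B := hn
  have hsub : Gam K X D x0 y0 c ⊆ Gst K X D x0 y0 c α ∪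
      P.biUnion fun x => (Finset.range D).filter fun i => has (Kd K x0 y0) c x i := by
    intro γ hγ
    by_cases h : γ ∈ Gst K X D x0 y0 c α
    · exact Finset.mem_union_left _ h
    · refine Finset.mem_union_right _ ?_
      have h' : ¬ ∀ x ∈ X, has (Kd K x0 y0) c x α → ¬ has (Kd K x0 y0) c x γ := by
        intro h''
        exact h (Finset.mem_filter.2 ⟨hγ, h''⟩)
      push Not at h'
      obtain ⟨x, hx, ha, hb⟩ := h'
      refine Finset.mem_biUnion.2 ⟨x, Finset.mem_filter.2 ⟨hx, ha⟩, ?_⟩
      exact Finset.mem_filter.2 ⟨(Finset.mem_filter.1 hγ).1, hb⟩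
  have hcard : ((Gam K X D x0 y0 c).card : ℝ) ≤ (Gst K X D x0 y0 c α).card +
      ∑ x ∈ P, (dg K x : ℝ) := by
    have e1 : (Gam K X D x0 y0 c).card ≤ (Gst K X D x0 y0 c α).card + ∑ x ∈ P, dg K x :=
      (Finset.card_le_card hsub).trans ((Finset.card_union_le _ _).trans
        (Nat.add_le_add_left (Finset.card_biUnion_le.trans
          (Finset.sum_le_sum fun x _ => BL6_colours K x0 y0 c D x)) _))
    exact_mod_cast e1
  have hsum : ∑ x ∈ P, (dg K x : ℝ) ≤ 11 / 10 * r + 2 * B * (r / (40 * B)) := by
    have hle : ∀ x ∈ P, (dg K x : ℝ) ≤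
        (if x ∈ hvc K X x0 y0 r B c α then 11 / 10 * r else 0) + r / (40 * B) := by
      intro x hx
      have hpos : 0 ≤ r / (40 * B) := by positivity
      by_cases h : x ∈ hvc K X x0 y0 r B c α
      · rw [if_pos h]
        have := hB.degx x (Finset.mem_filter.1 hx).1
        linarith
      · rw [if_neg h, zero_add]
        by_contra hc
        push Not at hc
        exact h (Finset.mem_filter.2 ⟨(Finset.mem_filter.1 hx).1, (Finset.mem_filter.1 hx).2, hc⟩)
    refine (Finset.sum_le_sum hle).trans ?_
    rw [Finset.sum_add_distrib, Finset.sum_const, nsmul_eq_mul, ← Finset.sum_filter,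
      Finset.sum_const, nsmul_eq_mul]
    have hc1 : ((P.filter fun x => x ∈ hvc K X x0 y0 r B c α).card : ℝ) ≤ 1 := by
      have e1 : (P.filter fun x => x ∈ hvc K X x0 y0 r B c α) ⊆ hvc K X x0 y0 r B c α :=
        fun x hx => (Finset.mem_filter.1 hx).2
      exact_mod_cast (Finset.card_le_card e1).trans hm.hv
    have hpos : 0 ≤ r / (40 * B) := by positivity
    have hpos2 : 0 ≤ 11 / 10 * r := by positivity
    have e2 := mul_le_mul_of_nonneg_right hc1 hpos2
    have e3 := mul_le_mul_of_nonneg_right hPc hpos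
    linarith
  have e4 : 2 * B * (r / (40 * B)) = r / 20 := by
    field_simp
    ring
  rw [e4] at hsum
  linarith

/-- BL6. -/
theorem BL6 (h1 : BL1_stmt) (h2 : BL2_stmt) (h3 : BL3_stmt) : BL6_stmt := by
  intro V _ K X D p x0 y0 r B c α hB hg hm
  refine ⟨BL6_size h3 V K X D p x0 y0 r B c α hB hg hm, ?_⟩
  intro γ hγ z hzX hzy
  obtain ⟨hαG, -, -⟩ := h3 V K X D p x0 y0 r B c α hB hg hm.bco
  obtain ⟨hγG, hclean⟩ := Finset.mem_filter.1 hγ
  obtain ⟨hγD', hγx, hγy, hout⟩ := Finset.mem_filter.1 hγG
  have hγD : γ < D := Finset.mem_range.1 hγD'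
  have hγα : γ ≠ α := by
    rintro rfl
    exact hαG hγG
  obtain ⟨hy0α, hall⟩ := h1 V K X D p x0 y0 r B c α hB hg hm.bco
  obtain ⟨-, hhas, heven⟩ := hall γ hγD hγα hγx hγy
  have huniq := hm.bco.pec.2
  have hx0α := hm.bco.mis
  -- the step along an edge
  have stepα : ∀ v w, K.Adj v w → Function.update c s(x0, y0) γ s(v, w) = α →
      (Kd K x0 y0).Adj v w ∧ c s(v, w) = α := by
    intro v w hvw hc
    rcases (BL6_adj K x0 y0 hB.adj c γ α v w).1 ⟨hvw, hc⟩ with ⟨-, h⟩ | h
    · exact absurd h hγα
    · exact h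
  have stepγ : ∀ v w, K.Adj v w → Function.update c s(x0, y0) γ s(v, w) = γ →
      s(v, w) = s(x0, y0) ∨ ((Kd K x0 y0).Adj v w ∧ c s(v, w) = γ) := by
    intro v w hvw hc
    rcases (BL6_adj K x0 y0 hB.adj c γ γ v w).1 ⟨hvw, hc⟩ with ⟨h, -⟩ | h
    · exact Or.inl h
    · exact Or.inr h
  -- uniqueness of the neighbours
  have uni : ∀ {v w w' : V} {i : ℕ}, (Kd K x0 y0).Adj v w → c s(v, w) = i →
      (Kd K x0 y0).Adj v w' → c s(v, w') = i → w = w' := by
    intro v w w' i a1 a2 a3 a4
    exact huniq v w w' a1 a3 (a2.trans a4.symm)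
  -- an edge of colour γ with an end outside X has its other end in X
  have hin : ∀ {v w : V}, (Kd K x0 y0).Adj v w → c s(v, w) = γ → v ∉ X → w ∈ X := by
    intro v w a1 a2 a3
    by_contra a4
    exact hout v w a1 a3 a4 a2
  constructor
  · -- γ present at z
    rintro ⟨w, hzw, hcw⟩
    by_contra hzα
    have hwX : w ∈ X := hin hzw hcw hzX
    have hwγ : has (Kd K x0 y0) c w γ := BL6_has_symm _ _ hzw hcw
    have hwα : ¬ has (Kd K x0 y0) c w α := fun h => hclean w hwX h hwγ
    have hwx0 : w ≠ x0 := by
      rintro rfl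
      exact hγx hwγ
    have hwy0 : w ≠ y0 := by
      rintro rfl
      exact hB.y0Y hwX
    have hzx0 : z ≠ x0 := by
      rintro rfl
      exact hzX hB.x0X
    have hkcl : Kcl K (Function.update c s(x0, y0) γ) α γ {z, w} := by
      refine BL6_kcl _ _ _ _ _ fun v u hvu hc hv => ?_
      rw [Finset.mem_insert, Finset.mem_singleton] at hv ⊢
      rcases hc with hc | hc
      · obtain ⟨a1, a2⟩ := stepα v u hvu hc
        rcases hv with rfl | rfl
        · exact absurd ⟨u, a1, a2⟩ hzα
        · exact absurd ⟨u, a1, a2⟩ hwα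
      · rcases stepγ v u hvu hc with h | ⟨a1, a2⟩
        · rw [Sym2.eq_iff] at h
          rcases hv with rfl | rfl
          · rcases h with ⟨h, -⟩ | ⟨h, -⟩
            · exact absurd h hzx0
            · exact absurd h hzy
          · rcases h with ⟨h, -⟩ | ⟨h, -⟩
            · exact absurd h hwx0
            · exact absurd h hwy0
        · rcases hv with rfl | rfl
          · exact Or.inr (uni a1 a2 hzw hcw)
          · refine Or.inl (uni a1 a2 hzw.symm ?_)
            rw [Sym2.eq_swap]
            exact hcw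
    refine BL6_odd X _ w (fun y => ?_) (heven {z, w} hkcl)
    constructor
    · rintro ⟨hyX, hyS, -⟩
      rw [Finset.mem_insert, Finset.mem_singleton] at hyS
      rcases hyS with rfl | rfl
      · exact absurd hyX hzX
      · rfl
    · rintro rfl
      refine ⟨hwX, by simp, ?_⟩
      rw [hhas y hwx0 hwy0, hhas y hwx0 hwy0]
      exact fun h => hwα (h.2 hwγ)
  · -- α present at z
    rintro ⟨w, hzw, hcw⟩
    by_contra hzγ
    have hzx0 : z ≠ x0 := by
      rintro rfl
      exact hzX hB.x0X
    by_cases hwX : w ∈ X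
    · have hwα : has (Kd K x0 y0) c w α := BL6_has_symm _ _ hzw hcw
      refine hzγ (h2 V K X D p x0 y0 r B c α hB hg hm.bco γ hγD hγα hγx hγy w hwX z hzw.symm ?_
        hzy (hclean w hwX hwα))
      rw [Sym2.eq_swap]
      exact hcw
    · have hwx0 : w ≠ x0 := by
        rintro rfl
        exact hwX hB.x0X
      by_cases hwy : w = y0
      · subst hwy
        have hcw' : c s(w, z) = α := by
          rw [Sym2.eq_swap]
          exact hcw
        have hkcl : Kcl K (Function.update c s(x0, w) γ) α γ {z, w, x0} := by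
          refine BL6_kcl _ _ _ _ _ fun v u hvu hc hv => ?_
          rw [Finset.mem_insert, Finset.mem_insert, Finset.mem_singleton] at hv ⊢
          rcases hc with hc | hc
          · obtain ⟨a1, a2⟩ := stepα v u hvu hc
            rcases hv with rfl | rfl | rfl
            · exact Or.inr (Or.inl (uni a1 a2 hzw hcw))
            · exact Or.inl (uni a1 a2 hzw.symm hcw')
            · exact absurd ⟨u, a1, a2⟩ hx0α
          · rcases stepγ v u hvu hc with h | ⟨a1, a2⟩
            · rw [Sym2.eq_iff] at h
              rcases h with ⟨-, h⟩ | ⟨-, h⟩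
              · exact Or.inr (Or.inl h)
              · exact Or.inr (Or.inr h)
            · rcases hv with rfl | rfl | rfl
              · exact absurd ⟨u, a1, a2⟩ hzγ
              · exact absurd ⟨u, a1, a2⟩ hγy
              · exact absurd ⟨u, a1, a2⟩ hγx
        refine BL6_odd X _ x0 (fun y => ?_) (heven {z, w, x0} hkcl)
        constructor
        · rintro ⟨hyX, hyS, -⟩
          rw [Finset.mem_insert, Finset.mem_insert, Finset.mem_singleton] at hyS
          rcases hyS with rfl | rfl | rfl
          · exact absurd hyX hzX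
          · exact absurd hyX hwX
          · rfl
        · rintro rfl
          refine ⟨hB.x0X, by simp, ?_⟩
          intro h
          have e1 : has K (Function.update c s(y, w) γ) y γ := by
            refine ⟨w, ?_⟩
            exact (BL6_adj K y w hB.adj c γ γ y w).2 (Or.inl ⟨rfl, rfl⟩)
          obtain ⟨u, a1, a2⟩ := h.2 e1
          exact hx0α ⟨u, stepα y u a1 a2⟩
      · have hwγ : has (Kd K x0 y0) c w γ := by
          rcases hm.yy γ hγG z w hzX hwX hzw hcw hzy hwy with h | h
          · exact absurd h hzγ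
          · exact h
        obtain ⟨w', hww', hcw'⟩ := hwγ
        have hwX' : w' ∈ X := hin hww' hcw' hwX
        have hwγ' : has (Kd K x0 y0) c w' γ := BL6_has_symm _ _ hww' hcw'
        have hwα' : ¬ has (Kd K x0 y0) c w' α := fun h => hclean w' hwX' h hwγ'
        have hwx0' : w' ≠ x0 := by
          rintro rfl
          exact hγx hwγ'
        have hwy0' : w' ≠ y0 := by
          rintro rfl
          exact hB.y0Y hwX'
        have hcs : c s(w, z) = α := by
          rw [Sym2.eq_swap]
          exact hcw
        have hcs' : c s(w', w) = γ := by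
          rw [Sym2.eq_swap]
          exact hcw'
        have hkcl : Kcl K (Function.update c s(x0, y0) γ) α γ {z, w, w'} := by
          refine BL6_kcl _ _ _ _ _ fun v u hvu hc hv => ?_
          rw [Finset.mem_insert, Finset.mem_insert, Finset.mem_singleton] at hv ⊢
          rcases hc with hc | hc
          · obtain ⟨a1, a2⟩ := stepα v u hvu hc
            rcases hv with rfl | rfl | rfl
            · exact Or.inr (Or.inl (uni a1 a2 hzw hcw))
            · exact Or.inl (uni a1 a2 hzw.symm hcs)
            · exact absurd ⟨u, a1, a2⟩ hwα'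
          · rcases stepγ v u hvu hc with h | ⟨a1, a2⟩
            · rw [Sym2.eq_iff] at h
              rcases hv with rfl | rfl | rfl
              · rcases h with ⟨h, -⟩ | ⟨h, -⟩
                · exact absurd h hzx0
                · exact absurd h hzy
              · rcases h with ⟨h, -⟩ | ⟨h, -⟩
                · exact absurd h hwx0
                · exact absurd h hwy
              · rcases h with ⟨h, -⟩ | ⟨h, -⟩
                · exact absurd h hwx0'
                · exact absurd h hwy0'
            · rcases hv with rfl | rfl | rfl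
              · exact absurd ⟨u, a1, a2⟩ hzγ
              · exact Or.inr (Or.inr (uni a1 a2 hww' hcw'))
              · exact Or.inr (Or.inl (uni a1 a2 hww'.symm hcs'))
        refine BL6_odd X _ w' (fun y => ?_) (heven {z, w, w'} hkcl)
        constructor
        · rintro ⟨hyX, hyS, -⟩
          rw [Finset.mem_insert, Finset.mem_insert, Finset.mem_singleton] at hyS
          rcases hyS with rfl | rfl | rfl
          · exact absurd hyX hzX
          · exact absurd hyX hwX
          · rfl
        · rintro rfl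
          refine ⟨hwX', by simp, ?_⟩
          rw [hhas y hwx0' hwy0', hhas y hwx0' hwy0']
          exact fun h => hwα' (h.2 hwγ')

end

end Pool.Agent.OF
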