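import Pool.Agent.helper86.OF.SpecM
import Pool.Agent.helper6.OF.KPB

/-!
# Edge colouring of dense critical graphs: module KPA (the first phase, all active vertices covered)
-/

open scoped BigOperators

namespace Pool.Agent.OF

noncomputable section

open Classical

/-- a fixed point free involution of a finite set -/
theorem KPA_even {V : Type} (s : Finset V) (μ : V → V) (h1 : ∀ v, μ (μ v) = v)
    (h2 : ∀ v ∈ s, μ v ∈ s) (h3 : ∀ v ∈ s, μ v ≠ v) : Even s.card := by
  have h : ∑ _x ∈ s, (1 : ZMod 2) = 0 := by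
    refine Finset.sum_involution (fun x _ => μ x) ?_ ?_ ?_ ?_
    · intro a _
      decide
    · intro a ha _
      exact h3 a ha
    · intro a ha
      exact h2 a ha
    · intro a _
      exact h1 a
  rw [Finset.sum_const, nsmul_eq_mul, mul_one, ZMod.natCast_eq_zero_iff_even] at h
  exact h

section
variable {V : Type} [Fintype V]

/-- the class `i`, the edges meeting `H i` deleted -/
def KPA_m (G : SimpleGraph V) (A X : Finset V) (c : Sym2 V → ℕ) (H : ℕ → Finset V) (i : ℕ)
    (v : V) : V :=
  if v ∈ X \ H i ∧ ptn (innerG G A) c i v ∈ X \ H i then ptn (innerG G A) c i v else v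

/-- the available cross edges -/
def KPA_C (G : SimpleGraph V) (A X : Finset V) (H : ℕ → Finset V) (M : ℕ → V → V) (i : ℕ) :
    SimpleGraph V :=
  onG (remG (crossG G A) M (Finset.range i)) (X \ H i)

/-- the properties of the step `j` -/
structure KPA_Step (G : SimpleGraph V) (A X : Finset V) (c : Sym2 V → ℕ) (H : ℕ → Finset V) (θ : ℝ)
    (M : ℕ → V → V) (T : ℕ → Finset V) (j : ℕ) : Prop where
  chg : Chg (KPA_C G A X H M j) (KPA_m G A X c H j) (M j) (T j)
  cov : ∀ x ∈ X \ H j, M j x ≠ x
  cT : (T j).card ≤ 3 * ((X \ H j).filter fun x => KPA_m G A X c H j x = x).card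
  mem : ∀ v ∈ T j, (v ∈ X \ H j ∧ KPA_m G A X c H j v = v) ∨ v ∉ KPB_S θ T j

/-- the hypotheses -/
structure KPA_H (G : SimpleGraph V) (A X : Finset V) (k k1 : ℕ) (c : Sym2 V → ℕ)
    (H : ℕ → Finset V) (δ : ℝ) : Prop where
  kk : k ≤ k1
  kN : k1 ≤ Fintype.card V
  sup : ∀ v w, G.Adj v w → v ∈ X ∧ w ∈ X
  pec : PEC (innerG G A) k1 c
  hH : ∀ i < k, H i ⊆ X ∧ Even (X \ H i).card ∧ ((H i).card : ℝ) ≤ δ * Fintype.card V ∧
      (mis (innerG G A) c X i : ℝ) ≤ δ * Fintype.card V
  hx : ∀ x ∈ X, (((Finset.range k).filter fun i => x ∈ H i).card : ℝ) ≤ δ * Fintype.card V ∧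
      (((Finset.range k).filter fun i => ¬ has (innerG G A) c x i).card : ℝ) ≤
        δ * Fintype.card V ∧
      (((Finset.range k).filter fun i => ∃ w ∈ H i, (innerG G A).Adj x w ∧
        c s(x, w) = i).card : ℝ) ≤ δ * Fintype.card V

omit [Fintype V] in
theorem KPA_C_congr (G : SimpleGraph V) (A X : Finset V) (H : ℕ → Finset V) (M M' : ℕ → V → V)
    (n : ℕ) (h : ∀ l < n, M' l = M l) : KPA_C G A X H M' n = KPA_C G A X H M n := by
  unfold KPA_C
  rw [KPB_rem_congr (crossG G A) M M' n h]

theorem KPA_Step.congr {G : SimpleGraph V} {A X : Finset V} {c : Sym2 V → ℕ} {H : ℕ → Finset V}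
    {θ : ℝ} {M M' : ℕ → V → V} {T T' : ℕ → Finset V} {j : ℕ}
    (h : KPA_Step G A X c H θ M T j) (h1 : ∀ l ≤ j, M' l = M l) (h2 : ∀ l ≤ j, T' l = T l) :
    KPA_Step G A X c H θ M' T' j := by
  have e1 := KPA_C_congr G A X H M M' j fun l hl => h1 l hl.le
  have e2 := KPB_S_congr θ T T' j fun l hl => h2 l hl.le
  have f1 := h1 j le_rfl
  have f2 := h2 j le_rfl
  constructor
  · rw [e1, f1, f2]; exact h.chg
  · rw [f1]; exact h.cov
  · rw [f2]; exact h.cT
  · rw [f2, e2]; exact h.mem

section
variable {G : SimpleGraph V} {A X : Finset V} {k k1 : ℕ} {c : Sym2 V → ℕ} {H : ℕ → Finset V}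
  {δ : ℝ}

omit [Fintype V] in
theorem KPA_m_cases (i : ℕ) (v : V) :
    KPA_m G A X c H i v = v ∨ (v ∈ X \ H i ∧ ptn (innerG G A) c i v ∈ X \ H i ∧
      KPA_m G A X c H i v = ptn (innerG G A) c i v) := by
  unfold KPA_m
  split_ifs with h
  · right
    exact ⟨h.1, h.2, rfl⟩
  · left; rfl

theorem KPA_m_inv (hPTN : PTN_stmt) (hh : KPA_H G A X k k1 c H δ) (i : ℕ) (v : V) :
    KPA_m G A X c H i (KPA_m G A X c H i v) = v := by
  have hP := (hPTN V (innerG G A) k1 c hh.pec i).1.1
  by_cases h : v ∈ X \ H i ∧ ptn (innerG G A) c i v ∈ X \ H i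
  · have h1 : KPA_m G A X c H i v = ptn (innerG G A) c i v := by
      unfold KPA_m
      rw [if_pos h]
    rw [h1]
    unfold KPA_m
    rw [hP, if_pos ⟨h.2, h.1⟩]
  · have h1 : KPA_m G A X c H i v = v := by
      unfold KPA_m
      rw [if_neg h]
    rw [h1, h1]

theorem KPA_m_adj (hPTN : PTN_stmt) (hh : KPA_H G A X k k1 c H δ) (i : ℕ) (v : V)
    (hv : KPA_m G A X c H i v ≠ v) :
    (innerG G A).Adj v (KPA_m G A X c H i v) ∧ c s(v, KPA_m G A X c H i v) = i ∧
      KPA_m G A X c H i v = ptn (innerG G A) c i v := by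
  rcases KPA_m_cases (G := G) (A := A) (X := X) (c := c) (H := H) i v with h | ⟨-, -, h⟩
  · exact absurd h hv
  · rw [h] at hv ⊢
    have h1 := (hPTN V (innerG G A) k1 c hh.pec i).1.2 v hv
    exact ⟨h1, ((hPTN V (innerG G A) k1 c hh.pec i).2.1 v _ h1).1 rfl, rfl⟩

omit [Fintype V] in
theorem KPA_m_out (i : ℕ) (v : V) (hv : v ∉ X \ H i) : KPA_m G A X c H i v = v := by
  unfold KPA_m
  rw [if_neg fun h => hv h.1]

omit [Fintype V] in
theorem KPA_m_mem (i : ℕ) (v : V) (hv : v ∈ X \ H i) : KPA_m G A X c H i v ∈ X \ H i := by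
  rcases KPA_m_cases (G := G) (A := A) (X := X) (c := c) (H := H) i v with h | ⟨-, h1, h⟩
  · rw [h]; exact hv
  · rw [h]; exact h1

/-- the partner of an uncovered vertex -/
theorem KPA_unc (hPTN : PTN_stmt) (hh : KPA_H G A X k k1 c H δ) (i : ℕ) (v : V)
    (hv : v ∈ X \ H i) (hm : KPA_m G A X c H i v = v) :
    ¬ has (innerG G A) c v i ∨ (ptn (innerG G A) c i v ∈ H i ∧
      (innerG G A).Adj v (ptn (innerG G A) c i v) ∧ c s(v, ptn (innerG G A) c i v) = i) := by
  by_cases h : has (innerG G A) c v i
  · right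
    have hne := ((hPTN V (innerG G A) k1 c hh.pec i).2.2 v).2 h
    have h1 := (hPTN V (innerG G A) k1 c hh.pec i).1.2 v hne
    refine ⟨?_, h1, ((hPTN V (innerG G A) k1 c hh.pec i).2.1 v _ h1).1 rfl⟩
    by_contra h2
    have h3 : ptn (innerG G A) c i v ∈ X \ H i :=
      Finset.mem_sdiff.mpr ⟨(hh.sup _ _ h1.1).2, h2⟩
    unfold KPA_m at hm
    rw [if_pos ⟨hv, h3⟩] at hm
    exact hne hm
  · left; exact h

/-- the number of uncovered vertices -/
theorem KPA_r (hPTN : PTN_stmt) (hh : KPA_H G A X k k1 c H δ) (i : ℕ) (hi : i < k) :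
    (((X \ H i).filter fun x => KPA_m G A X c H i x = x).card : ℝ) ≤
      2 * (δ * Fintype.card V) := by
  have hP := (hPTN V (innerG G A) k1 c hh.pec i).1.1
  have h1 : ((X \ H i).filter fun x => KPA_m G A X c H i x = x) ⊆
      (X.filter fun x => ¬ has (innerG G A) c x i) ∪
      (H i).image (fun w => ptn (innerG G A) c i w) := by
    intro x hx
    obtain ⟨hx1, hx2⟩ := Finset.mem_filter.mp hx
    rw [Finset.mem_union]
    rcases KPA_unc hPTN hh i x hx1 hx2 with h | h
    · left
      exact Finset.mem_filter.mpr ⟨(Finset.mem_sdiff.mp hx1).1, h⟩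
    · right
      exact Finset.mem_image.mpr ⟨_, h.1, hP x⟩
  have h2 := Finset.card_le_card h1
  have h3 := Finset.card_union_le (X.filter fun x => ¬ has (innerG G A) c x i)
    ((H i).image (fun w => ptn (innerG G A) c i w))
  have h4 := Finset.card_image_le (s := H i) (f := fun w => ptn (innerG G A) c i w)
  have h5 : ((X \ H i).filter fun x => KPA_m G A X c H i x = x).card ≤
      mis (innerG G A) c X i + (H i).card := by
    unfold mis
    omega
  have h6 : (((X \ H i).filter fun x => KPA_m G A X c H i x = x).card : ℝ) ≤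
      (mis (innerG G A) c X i : ℝ) + ((H i).card : ℝ) := by exact_mod_cast h5
  have h7 := (hh.hH i hi).2.2
  linarith [h7.1, h7.2]

/-- the number of uncovered vertices is even -/
theorem KPA_par (hPTN : PTN_stmt) (hh : KPA_H G A X k k1 c H δ) (i : ℕ) (hi : i < k) :
    Even ((X \ H i).filter fun x => KPA_m G A X c H i x = x).card := by
  have h1 : Even ((X \ H i).filter fun x => ¬ KPA_m G A X c H i x = x).card := by
    refine KPA_even _ (KPA_m G A X c H i) (KPA_m_inv hPTN hh i) ?_ ?_
    · intro v hv
      obtain ⟨hv1, hv2⟩ := Finset.mem_filter.mp hv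
      refine Finset.mem_filter.mpr ⟨KPA_m_mem i v hv1, ?_⟩
      rw [KPA_m_inv hPTN hh i]
      exact fun h => hv2 h.symm
    · intro v hv
      exact (Finset.mem_filter.mp hv).2
  have h2 := Finset.card_filter_add_card_filter_not (s := X \ H i)
    (fun x => KPA_m G A X c H i x = x)
  have h3 := (hh.hH i hi).2.1
  rw [← h2] at h3
  exact (Nat.even_add.mp h3).mpr h1

/-- the number of the colours in which a vertex is uncovered -/
theorem KPA_mc (hPTN : PTN_stmt) (hδ : 0 < δ) (hh : KPA_H G A X k k1 c H δ) (n : ℕ) (hn : n ≤ k)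
    (v : V) :
    (((Finset.range n).filter fun i => v ∈ X \ H i ∧ KPA_m G A X c H i v = v).card : ℝ) ≤
      2 * (δ * Fintype.card V) := by
  by_cases hv : v ∈ X
  · have h1 : ((Finset.range n).filter fun i => v ∈ X \ H i ∧ KPA_m G A X c H i v = v) ⊆
        ((Finset.range k).filter fun i => ¬ has (innerG G A) c v i) ∪
        ((Finset.range k).filter fun i => ∃ w ∈ H i, (innerG G A).Adj v w ∧
          c s(v, w) = i) := by
      intro i hi
      obtain ⟨hi1, hi2, hi3⟩ := Finset.mem_filter.mp hi
      have hik : i ∈ Finset.range k :=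
        Finset.mem_range.mpr (lt_of_lt_of_le (Finset.mem_range.mp hi1) hn)
      rw [Finset.mem_union]
      rcases KPA_unc hPTN hh i v hi2 hi3 with h | h
      · left
        exact Finset.mem_filter.mpr ⟨hik, h⟩
      · right
        exact Finset.mem_filter.mpr ⟨hik, _, h.1, h.2.1, h.2.2⟩
    have h2 := Finset.card_le_card h1
    have h3 := Finset.card_union_le
      ((Finset.range k).filter fun i => ¬ has (innerG G A) c v i)
      ((Finset.range k).filter fun i => ∃ w ∈ H i, (innerG G A).Adj v w ∧ c s(v, w) = i)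
    have h4 : (((Finset.range n).filter fun i =>
        v ∈ X \ H i ∧ KPA_m G A X c H i v = v).card : ℝ) ≤
        (((Finset.range k).filter fun i => ¬ has (innerG G A) c v i).card : ℝ) +
        (((Finset.range k).filter fun i => ∃ w ∈ H i, (innerG G A).Adj v w ∧
          c s(v, w) = i).card : ℝ) := by exact_mod_cast h2.trans h3
    have h5 := (hh.hx v hv).2
    linarith [h5.1, h5.2]
  · have h1 : ((Finset.range n).filter fun i => v ∈ X \ H i ∧ KPA_m G A X c H i v = v) = ∅ := by
      refine Finset.filter_eq_empty_iff.mpr fun i _ h => hv (Finset.mem_sdiff.mp h.1).1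
    rw [h1, Finset.card_empty, Nat.cast_zero]
    positivity

/-- a vertex is touched at most `θ N / 2 + 1` times -/
theorem KPA_touch (hPTN : PTN_stmt) (hh : KPA_H G A X k k1 c H δ) {θ : ℝ} {M : ℕ → V → V}
    {T : ℕ → Finset V} {n : ℕ} (hn : n ≤ k)
    (hst : ∀ j < n, KPA_Step G A X c H θ M T j) (hθ : 0 < θ) (hδ0 : 0 < δ) (v : V) :
    (KPB_c T n v : ℝ) ≤ θ / 4 * Fintype.card V + 1 + 2 * (δ * Fintype.card V) := by
  set N : ℝ := (Fintype.card V : ℝ) with hNdef
  have hN0 : 0 ≤ N := Nat.cast_nonneg _
  set s1 := (Finset.range n).filter fun i => v ∈ X \ H i ∧ KPA_m G A X c H i v = v with hs1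
  set s2 := (Finset.range n).filter fun l => v ∈ T l ∧
    (((Finset.range l).filter fun l' => v ∈ T l').card : ℝ) < θ / 4 * N with hs2
  have hsub : ((Finset.range n).filter fun l => v ∈ T l) ⊆ s1 ∪ s2 := by
    intro l hl
    obtain ⟨hl1, hl2⟩ := Finset.mem_filter.mp hl
    have hln := Finset.mem_range.mp hl1
    rw [Finset.mem_union]
    rcases (hst l hln).mem v hl2 with h | h
    · left
      exact Finset.mem_filter.mpr ⟨hl1, h⟩
    · right
      refine Finset.mem_filter.mpr ⟨hl1, hl2, ?_⟩
      unfold KPB_S at h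
      rw [Finset.mem_filter, not_and] at h
      have := h (Finset.mem_univ v)
      push Not at this
      exact this
  have hc : (KPB_c T n v : ℝ) ≤ (s1.card : ℝ) + s2.card := by
    have h1 := Finset.card_le_card hsub
    have h2 := Finset.card_union_le s1 s2
    have h4 : KPB_c T n v ≤ s1.card + s2.card := by
      unfold KPB_c
      omega
    exact_mod_cast h4
  have hr0 : 0 ≤ θ / 4 * N := by positivity
  have e2 : (s2.card : ℝ) ≤ θ / 4 * N + 1 := KPB_hits T v _ hr0 n
  have e1 : (s1.card : ℝ) ≤ 2 * (δ * N) := KPA_mc hPTN hδ0 hh n hn v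
  linarith

/-- only touched edges are removed: cross degrees -/
theorem KPA_deg (hPTN : PTN_stmt) (hh : KPA_H G A X k k1 c H δ) {θ : ℝ} {M : ℕ → V → V}
    {T : ℕ → Finset V} {n : ℕ} (hst : ∀ j < n, KPA_Step G A X c H θ M T j) (x : V) :
    dg (crossG G A) x ≤ dg (remG (crossG G A) M (Finset.range n)) x + KPB_c T n x := by
  unfold dg dgs KPB_c
  have h1 : (Finset.univ.filter fun w => (crossG G A).Adj x w) ⊆
      (Finset.univ.filter fun w => (remG (crossG G A) M (Finset.range n)).Adj x w) ∪
      ((Finset.range n).filter fun l => x ∈ T l).image (fun l => M l x) := by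
    intro w hw
    have hw2 := (Finset.mem_filter.mp hw).2
    rw [Finset.mem_union]
    by_cases h : ∀ i ∈ Finset.range n, M i x ≠ w ∧ M i w ≠ x
    · left
      exact Finset.mem_filter.mpr ⟨Finset.mem_univ _, hw2, h⟩
    · right
      push Not at h
      obtain ⟨i, hi, h2⟩ := h
      have hin := Finset.mem_range.mp hi
      have h3 : M i x = w := by
        by_contra h4
        have h5 := h2 h4
        rw [← h5] at h4
        exact h4 ((hst i hin).chg.inv w)
      refine Finset.mem_image.mpr ⟨i, Finset.mem_filter.mpr ⟨hi, ?_⟩, h3⟩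
      by_contra h4
      have h5 := (hst i hin).chg.off x h4
      rw [h3] at h5
      have hne : KPA_m G A X c H i x ≠ x := by
        rw [← h5]
        exact (hw2.1.ne).symm
      have h6 := (KPA_m_adj hPTN hh i x hne).1
      rw [← h5] at h6
      exact hw2.2 h6.2
  have h2 := Finset.card_le_card h1
  have h3 := Finset.card_union_le
    (Finset.univ.filter fun w => (remG (crossG G A) M (Finset.range n)).Adj x w)
    (((Finset.range n).filter fun l => x ∈ T l).image (fun l => M l x))
  have h4 := Finset.card_image_le (s := (Finset.range n).filter fun l => x ∈ T l)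
    (f := fun l => M l x)
  omega

/-- the degrees of the available graph -/
theorem KPA_degC (hh : KPA_H G A X k k1 c H δ) {M : ℕ → V → V} (n : ℕ) (S : Finset V) (x : V)
    (hx : x ∈ X \ H n) :
    dg (remG (crossG G A) M (Finset.range n)) x ≤
      (Finset.univ.filter fun b => b ∉ S ∧ (KPA_C G A X H M n).Adj x b).card + S.card +
      (H n).card := by
  unfold dg dgs
  have h4 : (Finset.univ.filter fun w =>
      (remG (crossG G A) M (Finset.range n)).Adj x w) ⊆
      ((Finset.univ.filter fun b => b ∉ S ∧ (KPA_C G A X H M n).Adj x b) ∪ S) ∪ H n := by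
    intro w hw
    have hw2 := (Finset.mem_filter.mp hw).2
    rw [Finset.mem_union, Finset.mem_union]
    by_cases hws : w ∈ S
    · left; right; exact hws
    · by_cases hwh : w ∈ H n
      · right; exact hwh
      · left; left
        refine Finset.mem_filter.mpr ⟨Finset.mem_univ _, hws, hw2, hx, ?_⟩
        exact Finset.mem_sdiff.mpr ⟨(hh.sup _ _ hw2.1.1).2, hwh⟩
  refine (Finset.card_le_card h4).trans ((Finset.card_union_le _ _).trans ?_)
  exact Nat.add_le_add_right (Finset.card_union_le _ _) _

/-- the output, changed vertices -/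
theorem KPA_chgd (hPTN : PTN_stmt) (hh : KPA_H G A X k k1 c H δ) {θ : ℝ} (hδ0 : 0 < δ)
    {M : ℕ → V → V} {T : ℕ → Finset V} (hst : ∀ j < k, KPA_Step G A X c H θ M T j) (v : V) :
    (((Finset.range k).filter fun i => M i v ≠ ptn (innerG G A) c i v).card : ℝ) ≤
      KPB_c T k v + 2 * (δ * Fintype.card V) := by
  have h1 : ((Finset.range k).filter fun i => M i v ≠ ptn (innerG G A) c i v) ⊆
      ((Finset.range k).filter fun i => v ∈ T i) ∪
      ((Finset.range k).filter fun i => KPA_m G A X c H i v ≠ ptn (innerG G A) c i v) := by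
    intro i hi
    obtain ⟨hi1, hi2⟩ := Finset.mem_filter.mp hi
    rw [Finset.mem_union]
    by_cases h : v ∈ T i
    · left; exact Finset.mem_filter.mpr ⟨hi1, h⟩
    · right
      refine Finset.mem_filter.mpr ⟨hi1, ?_⟩
      rw [← (hst i (Finset.mem_range.mp hi1)).chg.off v h]
      exact hi2
  have h2 : (((Finset.range k).filter fun i =>
      KPA_m G A X c H i v ≠ ptn (innerG G A) c i v).card : ℝ) ≤ 2 * (δ * Fintype.card V) := by
    by_cases hv : v ∈ X
    · have h3 : ((Finset.range k).filter fun i =>
          KPA_m G A X c H i v ≠ ptn (innerG G A) c i v) ⊆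
          ((Finset.range k).filter fun i => v ∈ H i) ∪
          ((Finset.range k).filter fun i => ∃ w ∈ H i, (innerG G A).Adj v w ∧
            c s(v, w) = i) := by
        intro i hi
        obtain ⟨hi1, hi2⟩ := Finset.mem_filter.mp hi
        rw [Finset.mem_union]
        by_cases h : v ∈ H i
        · left; exact Finset.mem_filter.mpr ⟨hi1, h⟩
        · right
          have hvZ : v ∈ X \ H i := Finset.mem_sdiff.mpr ⟨hv, h⟩
          have hne : ptn (innerG G A) c i v ≠ v := by
            intro he
            refine hi2 ?_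
            rcases KPA_m_cases (G := G) (A := A) (X := X) (c := c) (H := H) i v with h5 | h5
            · rw [h5, he]
            · exact h5.2.2
          have hm : KPA_m G A X c H i v = v := by
            rcases KPA_m_cases (G := G) (A := A) (X := X) (c := c) (H := H) i v with h5 | h5
            · exact h5
            · exact absurd h5.2.2 hi2
          rcases KPA_unc hPTN hh i v hvZ hm with h5 | h5
          · exact absurd (((hPTN V (innerG G A) k1 c hh.pec i).2.2 v).1 hne) h5
          · exact Finset.mem_filter.mpr ⟨hi1, _, h5.1, h5.2.1, h5.2.2⟩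
      have h4 := Finset.card_le_card h3
      have h5 := Finset.card_union_le ((Finset.range k).filter fun i => v ∈ H i)
        ((Finset.range k).filter fun i => ∃ w ∈ H i, (innerG G A).Adj v w ∧ c s(v, w) = i)
      have h6 : (((Finset.range k).filter fun i =>
          KPA_m G A X c H i v ≠ ptn (innerG G A) c i v).card : ℝ) ≤
          (((Finset.range k).filter fun i => v ∈ H i).card : ℝ) +
          (((Finset.range k).filter fun i => ∃ w ∈ H i, (innerG G A).Adj v w ∧
            c s(v, w) = i).card : ℝ) := by exact_mod_cast h4.trans h5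
      have h7 := hh.hx v hv
      linarith [h7.1, h7.2.2]
    · have h3 : ((Finset.range k).filter fun i =>
          KPA_m G A X c H i v ≠ ptn (innerG G A) c i v) = ∅ := by
        refine Finset.filter_eq_empty_iff.mpr fun i _ h => h ?_
        rw [KPA_m_out i v fun h5 => hv (Finset.mem_sdiff.mp h5).1]
        by_contra h5
        exact hv (hh.sup _ _ ((hPTN V (innerG G A) k1 c hh.pec i).1.2 v (Ne.symm h5)).1).1
      rw [h3, Finset.card_empty, Nat.cast_zero]
      positivity
  have h3 := Finset.card_le_card h1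
  have h4 := Finset.card_union_le ((Finset.range k).filter fun i => v ∈ T i)
    ((Finset.range k).filter fun i => KPA_m G A X c H i v ≠ ptn (innerG G A) c i v)
  have h5 : (((Finset.range k).filter fun i => M i v ≠ ptn (innerG G A) c i v).card : ℝ) ≤
      (((Finset.range k).filter fun i => v ∈ T i).card : ℝ) +
      (((Finset.range k).filter fun i =>
        KPA_m G A X c H i v ≠ ptn (innerG G A) c i v).card : ℝ) := by
    exact_mod_cast h3.trans h4
  unfold KPB_c
  linarith

/-- the output, the edges -/
theorem KPA_out (hPTN : PTN_stmt) (hh : KPA_H G A X k k1 c H δ) {θ : ℝ} {M : ℕ → V → V}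
    {T : ℕ → Finset V} (hst : ∀ j < k, KPA_Step G A X c H θ M T j) :
    (∀ i < k, MatIn G (M i)) ∧ (∀ i < k, ∀ x ∈ X, (M i x = x ↔ x ∈ H i)) ∧
      (∀ i < k, ∀ v, M i v ≠ v → (v ∈ A ↔ M i v ∈ A) → c s(v, M i v) = i) ∧
      (∀ i < k, ∀ j < k, i ≠ j → ∀ v, M i v ≠ v → M i v ≠ M j v) := by
  have hdis : ∀ i < k, ∀ j < k, i < j → ∀ v, M j v ≠ v → M i v ≠ M j v := by
    intro i hi j hj hij v hv he
    rcases (hst j hj).chg.edg v hv with h | h
    · exact (h.1.2 i (Finset.mem_range.mpr hij)).1 he
    · have hne : KPA_m G A X c H j v ≠ v := by rw [← h]; exact hv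
      obtain ⟨h2, hc, -⟩ := KPA_m_adj hPTN hh j v hne
      rw [← h, ← he] at h2 hc
      rcases (hst i hi).chg.edg v (by rw [he]; exact hv) with h3 | h3
      · exact h3.1.1.2 h2.2
      · have hne' : KPA_m G A X c H i v ≠ v := by rw [← h3, he]; exact hv
        obtain ⟨h4, hc', -⟩ := KPA_m_adj hPTN hh i v hne'
        rw [← h3, hc] at hc'
        omega
  refine ⟨?_, ?_, ?_, ?_⟩
  · intro i hi
    refine ⟨(hst i hi).chg.inv, fun v hv => ?_⟩
    rcases (hst i hi).chg.edg v hv with h | h
    · exact h.1.1.1
    · have hne : KPA_m G A X c H i v ≠ v := by rw [← h]; exact hv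
      obtain ⟨h2, -, -⟩ := KPA_m_adj hPTN hh i v hne
      rw [h]
      exact h2.1
  · intro i hi x hx
    constructor
    · intro h
      by_contra h1
      exact (hst i hi).cov x (Finset.mem_sdiff.mpr ⟨hx, h1⟩) h
    · intro h
      by_contra h1
      have h2 : x ∉ X \ H i := fun h3 => (Finset.mem_sdiff.mp h3).2 h
      rcases (hst i hi).chg.edg x h1 with h3 | h3
      · exact h2 h3.2.1
      · rw [KPA_m_out i x h2] at h3
        exact h1 h3
  · intro i hi v hv hA
    rcases (hst i hi).chg.edg v hv with h | h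
    · exact absurd hA h.1.1.2
    · have hne : KPA_m G A X c H i v ≠ v := by rw [← h]; exact hv
      obtain ⟨-, h2, -⟩ := KPA_m_adj hPTN hh i v hne
      rw [← h] at h2
      exact h2
  · intro i hi j hj hij v hv he
    rcases lt_or_gt_of_ne hij with h | h
    · exact hdis i hi j hj h v (by rw [← he]; exact hv) he
    · exact hdis j hj i hi h v hv he.symm

end

end

theorem KPA (hKSA : KSA_stmt) (hPTN : PTN_stmt) : KPA_stmt := by
  intro ε θ hε hε1 hθ hθε
  -- the constants
  set δ : ℝ := min (θ / 16) (min (ε / 2000) (ε * θ / 240)) with hδdef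
  have hδ0 : 0 < δ := by
    rw [hδdef]
    exact lt_min (by positivity) (lt_min (by positivity) (by positivity))
  have hδ1 : δ ≤ θ / 16 := min_le_left _ _
  have hδ2 : δ ≤ ε / 2000 := (min_le_right _ _).trans (min_le_left _ _)
  have hδ3 : 240 * δ ≤ ε * θ := by
    have : δ ≤ ε * θ / 240 := (min_le_right _ _).trans (min_le_right _ _)
    linarith
  obtain ⟨N0, hN0⟩ := exists_nat_ge (1000 / ε + 8 / θ)
  refine ⟨δ, N0, hδ0, ?_⟩
  intro V _ G A X k k1 c H hN hk hk1 hsup hpec hA hAc hcd hH hx
  have hNr : (N0 : ℝ) ≤ Fintype.card V := by exact_mod_cast hN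
  set N : ℝ := (Fintype.card V : ℝ) with hNdef
  have hNb : 1000 / ε + 8 / θ ≤ N := hN0.trans hNr
  have hb1 : 1000 ≤ ε * N := by
    have h1 : 1000 / ε ≤ N := by
      have : 0 ≤ 8 / θ := by positivity
      linarith
    rw [div_le_iff₀ hε] at h1
    linarith
  have hb2 : 8 ≤ θ * N := by
    have h1 : 8 / θ ≤ N := by
      have : 0 ≤ 1000 / ε := by positivity
      linarith
    rw [div_le_iff₀ hθ] at h1
    linarith
  have hNpos : 0 < N := by
    by_contra h
    push Not at h
    have : ε * N ≤ 0 := mul_nonpos_of_nonneg_of_nonpos hε.le h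
    linarith
  have hh : KPA_H G A X k k1 c H δ := ⟨hk, hk1, hsup, hpec, hH, hx⟩
  have hδN : δ * N ≤ θ * N / 16 := by
    have := mul_le_mul_of_nonneg_right hδ1 hNpos.le
    linarith
  have hδN2 : δ * N ≤ ε * N / 2000 := by
    have := mul_le_mul_of_nonneg_right hδ2 hNpos.le
    linarith
  -- the induction
  have hind : ∀ n ≤ k, ∃ (M : ℕ → V → V) (T : ℕ → Finset V),
      ∀ j < n, KPA_Step G A X c H θ M T j := by
    intro n
    induction n with
    | zero => intro _; exact ⟨fun _ => id, fun _ => ∅, fun j hj => absurd hj (by omega)⟩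
    | succ n ih =>
      intro hn
      obtain ⟨M, T, hst⟩ := ih (by omega)
      have hnk : n < k := by omega
      have hr := KPA_r hPTN hh n hnk
      have hpar := KPA_par hPTN hh n hnk
      have hnN : (n : ℝ) ≤ N := by
        have : n ≤ Fintype.card V := (hnk.le.trans hk).trans hk1
        rw [hNdef]
        exact_mod_cast this
      have htouch := KPA_touch hPTN hh hnk.le hst hθ hδ0
      -- the set S
      have hS : ((KPB_S θ T n).card : ℝ) ≤ ε / 10 * N := by
        have h1 := KPB_cardS θ T n
        have h2 : ((∑ l ∈ Finset.range n, (T l).card : ℕ) : ℝ) ≤ N * (6 * (δ * N)) := by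
          push_cast
          have h3 : ∀ l ∈ Finset.range n, ((T l).card : ℝ) ≤ 6 * (δ * N) := by
            intro l hl
            have hln := Finset.mem_range.mp hl
            have h4 := (hst l hln).cT
            have h5 := KPA_r hPTN hh l (hln.trans hnk)
            have h6 : ((T l).card : ℝ) ≤
                3 * (((X \ H l).filter fun x => KPA_m G A X c H l x = x).card : ℝ) := by
              exact_mod_cast h4
            linarith
          have h4 := Finset.sum_le_sum h3
          rw [Finset.sum_const, Finset.card_range, nsmul_eq_mul] at h4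
          have h5 : (0 : ℝ) ≤ 6 * (δ * N) := by positivity
          exact h4.trans (mul_le_mul_of_nonneg_right hnN h5)
        have h3 : ((KPB_S θ T n).card : ℝ) * (θ / 4 * N) ≤ N * (6 * (δ * N)) := h1.trans h2
        have h4 : ((KPB_S θ T n).card : ℝ) * (θ / 4) ≤ 6 * (δ * N) := by
          have : ((KPB_S θ T n).card : ℝ) * (θ / 4) * N ≤ (6 * (δ * N)) * N := by linarith
          exact le_of_mul_le_mul_right this hNpos
        have h5 : 6 * (δ * N) ≤ ε / 10 * N * (θ / 4) := by
          have h6 : 240 * δ * N ≤ ε * θ * N := mul_le_mul_of_nonneg_right hδ3 hNpos.le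
          have h7 : ε / 10 * N * (θ / 4) = ε * θ * N / 40 := by ring
          rw [h7]
          linarith
        have h6 : ((KPB_S θ T n).card : ℝ) * (θ / 4) ≤ ε / 10 * N * (θ / 4) := h4.trans h5
        exact le_of_mul_le_mul_right h6 (by positivity)
      have hZA : ((((X \ H n) ∩ A).card : ℕ) : ℝ) ≤ (1 / 2 + ε) * N := by
        refine le_trans ?_ hA
        have : ((X \ H n) ∩ A).card ≤ (X ∩ A).card :=
          Finset.card_le_card (Finset.inter_subset_inter_right Finset.sdiff_subset)
        exact_mod_cast this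
      have hZB : ((((X \ H n) \ A).card : ℕ) : ℝ) ≤ (1 / 2 + ε) * N := by
        refine le_trans ?_ hAc
        have : ((X \ H n) \ A).card ≤ (X \ A).card :=
          Finset.card_le_card (Finset.sdiff_subset_sdiff Finset.sdiff_subset le_rfl)
        exact_mod_cast this
      have hr2 : (((X \ H n).filter fun x => KPA_m G A X c H n x = x).card : ℝ) ≤
          ε / 1000 * Fintype.card V := by
        rw [← hNdef] at hr ⊢
        linarith
      have hctx : KCtx A (X \ H n) (X \ H n) (KPA_C G A X H M n) (KPA_m G A X c H n)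
          (KPB_S θ T n) ε := by
        constructor
        · exact hε
        · exact hε1
        · exact le_rfl
        · exact fun v w h => ⟨h.2.1, h.2.2, h.1.1.2⟩
        · exact KPA_m_inv hPTN hh n
        · intro v
          by_cases h : KPA_m G A X c H n v = v
          · rw [h]
          · exact (KPA_m_adj hPTN hh n v h).1.2.symm
        · exact fun v hv => KPA_m_out n v hv
        · exact hZA
        · exact hZB
        · intro x hx'
          have h1 := KPA_deg hPTN hh hst x
          have h2 : (dg (crossG G A) x : ℝ) ≤ dg (remG (crossG G A) M (Finset.range n)) x +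
              (KPB_c T n x : ℝ) := by exact_mod_cast h1
          have h3 := KPA_degC hh (M := M) n (KPB_S θ T n) x hx'
          have h5 : (dg (remG (crossG G A) M (Finset.range n)) x : ℝ) ≤
              ((Finset.univ.filter fun b => b ∉ KPB_S θ T n ∧
                (KPA_C G A X H M n).Adj x b).card : ℝ) +
              ((KPB_S θ T n).card : ℝ) + ((H n).card : ℝ) := by exact_mod_cast h3
          have h6 := htouch x
          have h7 := hcd x (Finset.mem_sdiff.mp hx').1
          have h8 : θ * N ≤ ε * N := mul_le_mul_of_nonneg_right hθε hNpos.le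
          have h9 : 0 ≤ ε * N := by positivity
          have h13 := (hH n hnk).2.2.1
          show (1 / 4 + 5 * ε) * N ≤ _
          have h10 : (1 / 4 + 10 * ε) * N = 1 / 4 * N + 10 * (ε * N) := by ring
          have h11 : (1 / 4 + 5 * ε) * N = 1 / 4 * N + 5 * (ε * N) := by ring
          have h12 : ε / 10 * N = ε * N / 10 := by ring
          have h14 : θ / 4 * N = θ * N / 4 := by ring
          rw [← hNdef, h14] at h6
          rw [h10] at h7
          rw [h11]
          rw [h12] at hS
          linarith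
        · exact hS
        · have h2 : ε / 1000 * N ≤ ε / 10 * N := by
            refine mul_le_mul_of_nonneg_right ?_ hNpos.le
            linarith
          exact hr2.trans h2
      obtain ⟨μ, T', hchg, hcov, hcT, hmem⟩ :=
        hKSA V A (X \ H n) (KPB_S θ T n) (KPA_C G A X H M n) (KPA_m G A X c H n) ε hctx hpar hr2
          hb1
      refine ⟨Function.update M n μ, Function.update T n T', ?_⟩
      have u1 : ∀ l < n, Function.update M n μ l = M l := fun l hl =>
        Function.update_of_ne (by omega) _ _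
      have u2 : ∀ l < n, Function.update T n T' l = T l := fun l hl =>
        Function.update_of_ne (by omega) _ _
      intro j hj
      rcases Nat.lt_succ_iff_lt_or_eq.mp hj with hj | rfl
      · exact (hst j hj).congr (fun l hl => u1 l (by omega)) (fun l hl => u2 l (by omega))
      · have e1 := KPA_C_congr G A X H M (Function.update M j μ) j u1
        have e2 := KPB_S_congr θ T (Function.update T j T') j u2
        constructor
        · rw [e1, Function.update_self, Function.update_self]; exact hchg
        · rw [Function.update_self]; exact hcov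
        · rw [Function.update_self]; exact hcT
        · rw [Function.update_self, e2]; exact hmem
  obtain ⟨M, T, hst⟩ := hind k le_rfl
  obtain ⟨o1, o2, o3, o4⟩ := KPA_out hPTN hh hst
  refine ⟨M, o1, o2, o3, o4, ?_⟩
  intro v
  have h1 := KPA_touch hPTN hh le_rfl hst hθ hδ0 v
  have h2 := KPA_chgd hPTN hh hδ0 hst v
  rw [← hNdef] at h1 h2
  have h14 : θ / 4 * N = θ * N / 4 := by ring
  rw [h14] at h1
  linarith

end

end Pool.Agent.OF
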